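import Pool.Agent.Helper48.ST.Avg0
import Pool.Agent.Helper48.ST.CntSum
import Pool.Agent.Helper48.ST.ClsLe
import Pool.Agent.Helper62.SRU.MainSum

/-!
The average number of classes, with a rate which does not depend on the field (adapted from
Helper48/ST/Avg.lean).
-/

set_option autoImplicit false

open Polynomial
open scoped Classical
open Pool.Agent.Helper48.ST

namespace Pool.Agent.Helper62.SRU

theorem avg {ℓ : ℕ} [Fact ℓ.Prime] (h2 : ℓ ≠ 2) {n : ℕ} (hn1 : 2 ≤ n) (hn : ¬ ℓ ∣ n) :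
    ∃ θ : ℝ, 0 < θ ∧ ∀ (F : Type) [Field F] [Fintype F] (g : Lg F ℓ) (d : ℕ), 1 ≤ d →
      ∀ a : Fin n → F[X], Stp d a → ∀ δ : ℝ, 0 < δ → ∃ N₀ : ℕ, ∀ N : ℕ, N₀ ≤ N →
      ∑ t ∈ Sq (SS a) N, ((clsS g a t).ncard : ℝ) ≤
        (2 + δ * (N : ℝ) ^ (-θ)) * (ℓ : ℝ) ^ (n - 1) * ((Sq (SS a) N).card : ℝ) := by
  have hℓp : 0 < ℓ := (Fact.out : ℓ.Prime).pos
  have hℓ : (0 : ℝ) < ℓ := by exact_mod_cast hℓp
  set κ := Fintype.card (Vs n ℓ) with hκ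
  have hκe : κ = ℓ ^ (n - 1) := card_Vs (by omega)
  have hκ1 : 1 ≤ κ := by
    rw [hκe]
    exact Nat.one_le_pow _ _ hℓp
  have hκR : (κ : ℝ) = (ℓ : ℝ) ^ (n - 1) := by
    rw [hκe]
    push_cast
    rfl
  have hκ0 : (0 : ℝ) < κ := by exact_mod_cast hκ1
  obtain ⟨θ, hθ, hms⟩ := main_sum h2 (Vs n ℓ × Vs n ℓ) κ hκ1
  refine ⟨θ, hθ, fun F _ _ g d hd a ha δ hδ => ?_⟩
  obtain ⟨pa, pb, hp⟩ := exists_pairs (by omega : 1 ≤ n) ha
  obtain ⟨cS, cI, hcI, hcls⟩ := cls_le g h2 ha hp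
  set δ' : ℝ := δ * ((ℓ : ℝ)⁻¹) ^ (SS a).card with hδ'
  have hδ'0 : 0 < δ' := by positivity
  have hmain : ∀ y y' : Pr F n ℓ (SS a), ∃ N₀ : ℕ, ∀ N, N₀ ≤ N →
      ‖∑ s ∈ Fam (Vs n ℓ × Vs n ℓ) (SS a) N, (DatP g a pa pb (SS a) y y').W g κ (SS a) s‖ ≤
        (((DatP g a pa pb (SS a) y y').cnt κ (SS a) : ℝ) + δ' * (N : ℝ) ^ (-θ)) *
          ((Sq (SS a) N).card : ℝ) := fun y y' =>
    hms F g _ (datP_ok h2 g hn a pa pb (SS a) y y') (SS a) δ' hδ'0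
  choose N0 hN0 using hmain
  refine ⟨Finset.univ.sup fun y => Finset.univ.sup fun y' => N0 y y', fun N hN => ?_⟩
  have hNyy : ∀ y y', N0 y y' ≤ N := by
    intro y y'
    refine le_trans ?_ hN
    refine le_trans (Finset.le_sup (f := fun y' => N0 y y') (Finset.mem_univ y')) ?_
    exact Finset.le_sup (f := fun y => Finset.univ.sup fun y' => N0 y y') (Finset.mem_univ y)
  have h1 : ∑ t ∈ Sq (SS a) N, ((clsS g a t).ncard : ℝ) ≤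
      ∑ t ∈ Sq (SS a) N, ((Sol g a pa pb (SS a) t cS cI).card : ℝ) := by
    apply Finset.sum_le_sum
    intro t ht
    rw [mem_Sq] at ht
    exact_mod_cast (hcls t ht.1).2
  refine h1.trans ((sum_card_Sol g h2 a pa pb (SS a) cS cI hcI N).trans ?_)
  have hQ : (0 : ℝ) ≤ ((Sq (SS a) N).card : ℝ) := Nat.cast_nonneg _
  have hcardPr : (Fintype.card (Pr F n ℓ (SS a)) : ℝ) = (κ : ℝ) * (ℓ : ℝ) ^ (SS a).card := by
    rw [Fintype.card_prod, Fintype.card_fun, Fintype.card_coe, ZMod.card]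
    push_cast
    rfl
  have hcnt : ∑ y : Pr F n ℓ (SS a), ∑ y' : Pr F n ℓ (SS a), ((DatP g a pa pb (SS a) y y').cnt κ (SS a) : ℝ) ≤
      2 * (κ : ℝ) * ((κ : ℝ) * (ℓ : ℝ) ^ (SS a).card) := by
    have h3 := sum_cnt h2 g hn a pa pb (SS a) (fun i j hij => exists_over hd ha hp i j hij)
      (fun π hπ => (hp π hπ).1)
    exact_mod_cast h3
  have h4 : ∑ y : Pr F n ℓ (SS a), ∑ y' : Pr F n ℓ (SS a),
      ‖∑ s ∈ Fam (Vs n ℓ × Vs n ℓ) (SS a) N, (DatP g a pa pb (SS a) y y').W g κ (SS a) s‖ ≤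
      (2 * (κ : ℝ) * ((κ : ℝ) * (ℓ : ℝ) ^ (SS a).card) +
        δ' * (N : ℝ) ^ (-θ) * ((κ : ℝ) * (ℓ : ℝ) ^ (SS a).card) ^ 2) *
          ((Sq (SS a) N).card : ℝ) := by
    calc ∑ y : Pr F n ℓ (SS a), ∑ y' : Pr F n ℓ (SS a),
        ‖∑ s ∈ Fam (Vs n ℓ × Vs n ℓ) (SS a) N, (DatP g a pa pb (SS a) y y').W g κ (SS a) s‖
        ≤ ∑ y : Pr F n ℓ (SS a), ∑ y' : Pr F n ℓ (SS a),
          (((DatP g a pa pb (SS a) y y').cnt κ (SS a) : ℝ) + δ' * (N : ℝ) ^ (-θ)) *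
            ((Sq (SS a) N).card : ℝ) := by
          apply Finset.sum_le_sum
          intro y _
          apply Finset.sum_le_sum
          intro y' _
          exact hN0 y y' N (hNyy y y')
      _ = (∑ y : Pr F n ℓ (SS a), ∑ y' : Pr F n ℓ (SS a), ((DatP g a pa pb (SS a) y y').cnt κ (SS a) : ℝ) +
          δ' * (N : ℝ) ^ (-θ) * (Fintype.card (Pr F n ℓ (SS a)) : ℝ) ^ 2) *
            ((Sq (SS a) N).card : ℝ) := by
          simp only [← Finset.sum_mul, Finset.sum_add_distrib, Finset.sum_const, Finset.card_univ,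
            nsmul_eq_mul]
          ring
      _ ≤ _ := by
          rw [hcardPr]
          apply mul_le_mul_of_nonneg_right _ hQ
          linarith
  have h5 : (0 : ℝ) ≤ (κ : ℝ)⁻¹ * ((ℓ : ℝ)⁻¹) ^ (SS a).card := by positivity
  refine (mul_le_mul_of_nonneg_left h4 h5).trans (le_of_eq ?_)
  have h6 : ((ℓ : ℝ)⁻¹) ^ (SS a).card * (ℓ : ℝ) ^ (SS a).card = 1 := by
    rw [← mul_pow, inv_mul_cancel₀ hℓ.ne', one_pow]
  have h7 : (κ : ℝ)⁻¹ * κ = 1 := inv_mul_cancel₀ hκ0.ne'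
  rw [← hκR, hδ']
  set x : ℝ := ((ℓ : ℝ)⁻¹) ^ (SS a).card with hx
  set z : ℝ := (ℓ : ℝ) ^ (SS a).card with hz
  have e1 : (κ : ℝ)⁻¹ * x * ((2 * (κ : ℝ) * ((κ : ℝ) * z) +
      δ * x * (N : ℝ) ^ (-θ) * ((κ : ℝ) * z) ^ 2) * ((Sq (SS a) N).card : ℝ)) =
      ((κ : ℝ)⁻¹ * κ) * (x * z) * (2 * κ + δ * (N : ℝ) ^ (-θ) * κ * (x * z)) *
        ((Sq (SS a) N).card : ℝ) := by
    ring
  rw [e1, h6, h7]
  ring

end Pool.Agent.Helper62.SRU
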